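import Pool.Agent.BLP.StmtsV

set_option autoImplicit false

namespace Pool.Agent.BLP.V.H70

theorem v_chn : ChnStmt := by
  intro a b E hab hE
  classical
  let F : Finset ℝ := insert a (insert b E)
  have haF : a ∈ F := Finset.mem_insert_self _ _
  have hbF : b ∈ F := Finset.mem_insert_of_mem (Finset.mem_insert_self _ _)
  have hF : ∀ x ∈ F, a ≤ x ∧ x ≤ b := by
    intro x hx
    rcases Finset.mem_insert.1 hx with rfl | hx
    · exact ⟨le_rfl, hab⟩
    rcases Finset.mem_insert.1 hx with rfl | hx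
    · exact ⟨hab, le_rfl⟩
    exact hE x hx
  have hne : F.Nonempty := ⟨a, haF⟩
  obtain ⟨K, hK⟩ : ∃ K, F.card = K + 1 := ⟨F.card - 1, by
    have := hne.card_pos
    omega⟩
  let g : Fin (K + 1) ↪o ℝ := F.orderEmbOfFin hK
  have hg : ∀ i, g i ∈ F := fun i => F.orderEmbOfFin_mem hK i
  have hg' : ∀ x ∈ F, ∃ i, g i = x := by
    intro x hx
    have h1 : x ∈ Set.range g := by
      rw [Finset.range_orderEmbOfFin]
      exact_mod_cast hx
    exact h1
  refine ⟨K, fun i => if h : i < K + 1 then g ⟨i, h⟩ else b, ?_, ?_, ?_, ?_⟩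
  · have h0 : (0 : ℕ) < K + 1 := Nat.succ_pos K
    simp only [h0, dif_pos]
    apply le_antisymm
    · obtain ⟨i, hi⟩ := hg' a haF
      rw [← hi]
      exact g.monotone (Fin.zero_le i)
    · exact (hF _ (hg _)).1
  · have h0 : K < K + 1 := Nat.lt_succ_self K
    simp only [h0, dif_pos]
    apply le_antisymm
    · exact (hF _ (hg _)).2
    · obtain ⟨i, hi⟩ := hg' b hbF
      rw [← hi]
      exact g.monotone (Fin.le_last i)
  · intro i j hij hj
    have h1 : i < K + 1 := by omega
    have h2 : j < K + 1 := by omega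
    simp only [h1, h2, dif_pos]
    exact g.strictMono hij
  · intro x hx
    obtain ⟨i, hi⟩ := hg' x (Finset.mem_insert_of_mem (Finset.mem_insert_of_mem hx))
    refine ⟨i.1, Nat.lt_succ_iff.1 i.2, ?_⟩
    have h1 : i.1 < K + 1 := i.2
    simp only [h1, dif_pos]
    exact hi

end Pool.Agent.BLP.V.H70
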