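import Pool.Agent.BLP.StmtsV

set_option autoImplicit false

namespace Pool.Agent.BLP.V.H70

open Pool.Agent.BLP

theorem v_cnt (lpp : LppStmt) (box : BoxStmt) (cov : CovStmt) : CntStmt := by
  intro b α α' d p q s n hb hα hαα hd hp hq hsn hsp S hS
  classical
  have hp' : (1 : ℝ) ≤ p := by exact_mod_cast hp
  have hs0 : (0 : ℝ) ≤ s := Nat.cast_nonneg s
  have hsq : ((s * q : ℕ) : ℝ) ≤ n := by exact_mod_cast hsn
  have hsq' : (s : ℝ) * q ≤ n := by push_cast at hsq; exact hsq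
  let e : ℝ := (n - s * q) * α
  let e' : ℝ := n * α' + s * p
  -- the data of the valleys
  have hv : ∀ z : ℕ × ℕ, ∃ t₀ t₁ x₁ x₂ x₃ : ℝ, z ∈ S →
      (0 ≤ t₀ ∧ t₀ ≤ p ∧ 0 ≤ t₁ ∧ t₁ ≤ p ∧ α * ((n - z.1 * q : ℕ) : ℝ) ≤ x₁ ∧ x₁ ≤ x₂ ∧ x₂ ≤ x₃ ∧
        x₃ ≤ α' * ((n - z.1 * q : ℕ) : ℝ) ∧
      Dx (shT (z.2 * p : ℕ) (shL (z.1 * q : ℕ) b)) 0 t₀ q t₁ (n - z.1 * q : ℕ) x₂ + d <
        Dx (shT (z.2 * p : ℕ) (shL (z.1 * q : ℕ) b)) 0 t₀ q t₁ (n - z.1 * q : ℕ) x₁ ∧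
      Dx (shT (z.2 * p : ℕ) (shL (z.1 * q : ℕ) b)) 0 t₀ q t₁ (n - z.1 * q : ℕ) x₂ + d <
        Dx (shT (z.2 * p : ℕ) (shL (z.1 * q : ℕ) b)) 0 t₀ q t₁ (n - z.1 * q : ℕ) x₃) := by
    intro z
    by_cases hz : z ∈ S
    · obtain ⟨t₀, t₁, x₁, x₂, x₃, h⟩ := (hS z hz).2.2
      exact ⟨t₀, t₁, x₁, x₂, x₃, fun _ => h⟩
    · exact ⟨0, 0, 0, 0, 0, fun h => absurd h hz⟩
  choose t₀ t₁ x₁ x₂ x₃ hv using hv
  have hbox := box n (fun e k t => L b k t n e) (lpp b n hb) e e'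
  have hDx : ∀ (z : ℕ × ℕ), z ∈ S → ∀ (m : ℕ) (t x : ℝ),
      L (shT (z.2 * p : ℕ) (shL (z.1 * q : ℕ) b)) (m : ℤ) t (n - z.1 * q : ℕ) x =
        L b ((m + z.1 * q : ℕ) : ℤ) (t + z.2 * p) n (x + z.2 * p) := by
    intro z hz m t x
    have h1 : z.1 * q ≤ n := by
      have h2 : z.1 * q ≤ s * q := Nat.mul_le_mul_right q (hS z hz).1.le
      omega
    rw [(cov _ _ _ _ _).1, (cov _ _ _ _ _).2.1]
    congr 1
    · push_cast
      ring
    · push_cast [Nat.cast_sub h1]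
      ring
    · push_cast
      ring
  have hn : ∀ z ∈ S, ((n - z.1 * q : ℕ) : ℝ) = n - z.1 * q ∧ (z.1 : ℝ) * q ≤ s * q ∧
      (z.2 : ℝ) * p ≤ s * p ∧ (0 : ℝ) ≤ z.2 * p ∧ (0 : ℝ) ≤ z.1 * q := by
    intro z hz
    have h2 : z.1 * q ≤ s * q := Nat.mul_le_mul_right q (hS z hz).1.le
    have h1 : z.1 * q ≤ n := by omega
    have h3 : z.2 * p ≤ s * p := Nat.mul_le_mul_right p (hS z hz).2.1.le
    refine ⟨by push_cast [Nat.cast_sub h1]; ring, by exact_mod_cast h2, by exact_mod_cast h3, ?_, ?_⟩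
    · positivity
    · positivity
  have hee : e ≤ e' := by
    change (n - s * q) * α ≤ n * α' + s * p
    have h1 : (n - s * q : ℝ) * α ≤ n * α := by
      apply mul_le_mul_of_nonneg_right _ hα.le
      have : (0 : ℝ) ≤ s * q := by positivity
      linarith
    have h2 : (n : ℝ) * α ≤ n * α' := mul_le_mul_of_nonneg_left hαα (Nat.cast_nonneg n)
    have h3 : (0 : ℝ) ≤ s * p := by positivity
    linarith
  have key := hbox hee q (s * q) p (s * p) d S (fun z => t₀ z + z.2 * p) (fun z => t₁ z + z.2 * p)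
    (fun z => x₁ z + z.2 * p) (fun z => x₂ z + z.2 * p) (fun z => x₃ z + z.2 * p)
    (by omega) hsn (by linarith) hsp (by positivity) hd
    (fun z hz => by
      refine ⟨Nat.mul_le_mul_right q (hS z hz).1, ?_⟩
      have : ((z.2 + 1 : ℕ) : ℝ) ≤ s := by exact_mod_cast (hS z hz).2.1
      push_cast at this
      exact mul_le_mul_of_nonneg_right this (by linarith))
    (fun z hz => by
      obtain ⟨h1, h2, h3, h4, -⟩ := hv z hz
      constructor <;> simp only <;> nlinarith)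
    (fun z hz => by
      obtain ⟨h1, h2, h3, h4, -⟩ := hv z hz
      constructor <;> simp only <;> nlinarith)
    (fun z hz => by
      obtain ⟨-, -, -, -, h5, h6, h7, h8, -⟩ := hv z hz
      obtain ⟨g1, g2, g3, g4, g5⟩ := hn z hz
      rw [g1] at h5 h8
      refine ⟨?_, by linarith, by linarith, ?_⟩
      · change (n - s * q) * α ≤ x₁ z + z.2 * p
        have h9 : (n - s * q : ℝ) * α ≤ (n - z.1 * q) * α :=
          mul_le_mul_of_nonneg_right (by linarith) hα.le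
        linarith [mul_comm α ((n : ℝ) - z.1 * q)]
      · change x₃ z + z.2 * p ≤ n * α' + s * p
        have h9 : (n - z.1 * q : ℝ) * α' ≤ n * α' :=
          mul_le_mul_of_nonneg_right (by linarith) (by linarith)
        linarith [mul_comm α' ((n : ℝ) - z.1 * q)])
    (fun z hz => by
      obtain ⟨-, -, -, -, -, -, -, -, h9, h10⟩ := hv z hz
      have e0 : ∀ t x : ℝ, L (shT (z.2 * p : ℕ) (shL (z.1 * q : ℕ) b)) 0 t (n - z.1 * q : ℕ) x =
          L b ((z.1 * q : ℕ) : ℤ) (t + z.2 * p) n (x + z.2 * p) := by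
        intro t x
        have := hDx z hz 0 t x
        rw [zero_add] at this
        exact_mod_cast this
      have e1 : ∀ t x : ℝ, L (shT (z.2 * p : ℕ) (shL (z.1 * q : ℕ) b)) q t (n - z.1 * q : ℕ) x =
          L b (((z.1 + 1) * q : ℕ) : ℤ) (t + z.2 * p) n (x + z.2 * p) := by
        intro t x
        have := hDx z hz q t x
        rw [this]
        congr 2
        ring
      unfold Dx at h9 h10
      rw [e0, e0, e1, e1] at h9 h10
      exact ⟨h9, h10⟩)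
  exact key

end Pool.Agent.BLP.V.H70
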