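import Pool.Agent.BLP.StmtsV

set_option autoImplicit false

namespace Pool.Agent.BLP.V.H70

open Filter Topology

theorem num_aux (A B : ℕ → ℝ) (a m : ℝ) (ha : 0 < a)
    (hA : Tendsto (fun K : ℕ => A K / (K : ℝ) ^ 2) atTop (𝓝 a))
    (hB : Tendsto (fun K : ℕ => B K / (K : ℝ) ^ 2) atTop (𝓝 a))
    (hm : Tendsto (fun K : ℕ => (A K - B K) / (K : ℝ)) atTop (𝓝 m)) :
    Tendsto (fun K : ℕ => Real.sqrt (A K) - Real.sqrt (B K)) atTop (𝓝 (m / (2 * Real.sqrt a))) := by
  have h1 : Tendsto (fun K : ℕ => ((A K - B K) / (K : ℝ)) /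
      (Real.sqrt (A K / (K : ℝ) ^ 2) + Real.sqrt (B K / (K : ℝ) ^ 2))) atTop
      (𝓝 (m / (Real.sqrt a + Real.sqrt a))) := by
    refine hm.div ((Real.continuous_sqrt.tendsto a |>.comp hA).add
      (Real.continuous_sqrt.tendsto a |>.comp hB)) ?_
    have := Real.sqrt_pos.2 ha
    positivity
  rw [two_mul]
  refine h1.congr' ?_
  filter_upwards [hA.eventually (lt_mem_nhds ha), hB.eventually (lt_mem_nhds ha),
    eventually_ge_atTop 1] with K h2 h3 h4
  have hK : (0 : ℝ) < K := by exact_mod_cast h4
  have hA0 : 0 < A K := by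
    by_contra hcon
    exact absurd h2 (not_lt.2 (div_nonpos_of_nonpos_of_nonneg (not_lt.1 hcon) (by positivity)))
  have hB0 : 0 < B K := by
    by_contra hcon
    exact absurd h3 (not_lt.2 (div_nonpos_of_nonpos_of_nonneg (not_lt.1 hcon) (by positivity)))
  rw [Real.sqrt_div hA0.le, Real.sqrt_div hB0.le, Real.sqrt_sq hK.le]
  have hsA := Real.sqrt_pos.2 hA0
  have hsB := Real.sqrt_pos.2 hB0
  have h5 : A K - B K = (Real.sqrt (A K) - Real.sqrt (B K)) * (Real.sqrt (A K) + Real.sqrt (B K)) := by
    have h6 := Real.mul_self_sqrt hA0.le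
    have h7 := Real.mul_self_sqrt hB0.le
    linear_combination -h6 + h7
  rw [h5]
  field_simp

theorem v_num : NumStmt := by
  intro c α α' p q hα hα'
  have hx : Tendsto (fun K : ℕ => 1 / (K : ℝ)) atTop (𝓝 0) := tendsto_one_div_atTop_nhds_zero_nat
  have hcont : ∀ (f : ℝ → ℝ), Continuous f →
      Tendsto (fun K : ℕ => f (1 / (K : ℝ))) atTop (𝓝 (f 0)) := fun f hf =>
    (hf.tendsto 0).comp hx
  have h1 := num_aux (fun K => K * (K * α')) (fun K => (K - q) * (K * α' + p)) α' (q * α' - p) hα'
    (by
      refine (tendsto_const_nhds (x := α')).congr' ?_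
      filter_upwards [eventually_ge_atTop 1] with K hK
      have hK' : (K : ℝ) ≠ 0 := by positivity
      field_simp)
    (by
      have h := hcont (fun x => (1 - q * x) * (α' + p * x)) (by fun_prop)
      simp only [mul_zero, sub_zero, add_zero, one_mul] at h
      refine h.congr' ?_
      filter_upwards [eventually_ge_atTop 1] with K hK
      have hK' : (K : ℝ) ≠ 0 := by positivity
      field_simp)
    (by
      have h := hcont (fun x => (q * α' - p) + q * p * x) (by fun_prop)
      simp only [mul_zero, add_zero] at h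
      refine h.congr' ?_
      filter_upwards [eventually_ge_atTop 1] with K hK
      have hK' : (K : ℝ) ≠ 0 := by positivity
      field_simp
      ring)
  have h2 := num_aux (fun K => (K - q) * ((K - q) * α)) (fun K => K * ((K - q) * α - p)) α
    (p - q * α) hα
    (by
      have h := hcont (fun x => (1 - q * x) * (1 - q * x) * α) (by fun_prop)
      simp only [mul_zero, sub_zero, one_mul] at h
      refine h.congr' ?_
      filter_upwards [eventually_ge_atTop 1] with K hK
      have hK' : (K : ℝ) ≠ 0 := by positivity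
      field_simp)
    (by
      have h := hcont (fun x => (1 - q * x) * α - p * x) (by fun_prop)
      simp only [mul_zero, sub_zero, one_mul] at h
      refine h.congr' ?_
      filter_upwards [eventually_ge_atTop 1] with K hK
      have hK' : (K : ℝ) ≠ 0 := by positivity
      field_simp)
    (by
      have h := hcont (fun x => (p - q * α) + q * q * α * x) (by fun_prop)
      simp only [mul_zero, add_zero] at h
      refine h.congr' ?_
      filter_upwards [eventually_ge_atTop 1] with K hK
      have hK' : (K : ℝ) ≠ 0 := by positivity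
      field_simp
      ring)
  have h3 := (h1.add h2).const_mul c
  have h4 : c * ((q * α' - p) / (2 * Real.sqrt α') + (p - q * α) / (2 * Real.sqrt α)) =
      wI c α α' p q := by
    unfold wI
    have s1 := Real.sqrt_pos.2 hα
    have s2 := Real.sqrt_pos.2 hα'
    have r1 := Real.sq_sqrt hα.le
    have r2 := Real.sq_sqrt hα'.le
    field_simp
    linear_combination c * q * Real.sqrt α' * r1 - c * q * Real.sqrt α * r2
  rw [h4] at h3
  refine h3.congr ?_
  intro K
  unfold wK
  ring

end Pool.Agent.BLP.V.H70
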