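import Pool.Agent.BLP.StmtsV

set_option autoImplicit false

namespace Pool.Agent.BLP.V.H70

open MeasureTheory Filter Topology Pool.Agent.BLP

theorem v_vli (avg : AvgStmt) (llw : LlwStmt) (num : NumStmt) : VliStmt := by
  intro X _ μ B c hSp hLLN α α' d δ p q hα hαα hd hδ hp hq
  have := hSp.prob
  rw [frequently_atTop]
  intro n₀
  -- choice of `η`
  set w := wI c α α' p q with hw
  have hη : ∃ η : ℝ, 0 < η ∧ (|w| + 2 * η) ^ 2 / (2 * d ^ 2) ≤ w ^ 2 / (2 * d ^ 2) + δ / 2 := by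
    have h1 : Tendsto (fun η : ℝ => (|w| + 2 * η) ^ 2 / (2 * d ^ 2)) (𝓝[>] 0)
        (𝓝 ((|w| + 2 * 0) ^ 2 / (2 * d ^ 2))) := by
      apply Tendsto.mono_left _ nhdsWithin_le_nhds
      apply Continuous.tendsto
      fun_prop
    rw [mul_zero, add_zero, sq_abs] at h1
    have h2 : ∀ᶠ η in 𝓝[>] (0 : ℝ), (|w| + 2 * η) ^ 2 / (2 * d ^ 2) < w ^ 2 / (2 * d ^ 2) + δ / 2 :=
      h1.eventually (gt_mem_nhds (by linarith))
    obtain ⟨η, hη1, hη2⟩ := (h2.and self_mem_nhdsWithin).exists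
    exact ⟨η, hη2, hη1.le⟩
  obtain ⟨η, hη, hη'⟩ := hη
  -- choice of `K`
  have hK1 : ∀ᶠ K : ℕ in atTop, |wK c α α' p q K - w| < η := by
    have h1 := num c α α' p q hα (hα.trans hαα)
    have h2 := Metric.tendsto_nhds.1 h1 η hη
    filter_upwards [h2] with K hK
    rwa [Real.dist_eq] at hK
  have hK2 : ∀ᶠ K : ℕ in atTop, (q : ℝ) + 2 * p / α ≤ K :=
    tendsto_natCast_atTop_atTop.eventually_ge_atTop _
  obtain ⟨K, hKw, hKq, hKp⟩ := ((hK1.and ((eventually_ge_atTop (2 * q)).and hK2))).exists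
  have hp0 : (0 : ℝ) < p := by exact_mod_cast hp
  have hqK : q < K := by omega
  have hKp2 : 2 * (p : ℝ) ≤ (K - q) * α := by
    have h1 : 2 * (p : ℝ) / α ≤ K - q := by linarith
    rwa [div_le_iff₀ hα] at h1
  have hKp' : (p : ℝ) < (K - q) * α := by linarith
  -- choice of `s`
  have h1 := llw X μ B c hSp hLLN α α' η p q K hα hαα hη hp hq hqK hKp'
  have h2 : ∀ᶠ s : ℕ in atTop,
      μ {x | η * s < |Wd (B x) α α' p q s (K * s) - s * wK c α α' p q K|} < ENNReal.ofReal (δ / 2) :=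
    h1.eventually (gt_mem_nhds (by
      rw [ENNReal.ofReal_pos]
      linarith))
  obtain ⟨s, hs1, hs2, hs3⟩ := (h2.and ((eventually_ge_atTop 1).and
    (eventually_ge_atTop n₀))).exists
  have hs0 : (0 : ℝ) < s := by exact_mod_cast hs2
  have hs1' : (1 : ℝ) ≤ s := by exact_mod_cast hs2
  have h3 := avg X μ B hSp α α' d (|w| + 2 * η) p q s (K * s) hα hαα hd (by positivity) hp hq hs2
    (by nlinarith) (by
      push_cast
      have e1 : ((K : ℝ) * s - s * q) * α = s * ((K - q) * α) := by ring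
      rw [e1]
      have e2 : (s : ℝ) * (2 * p) ≤ s * ((K - q) * α) := mul_le_mul_of_nonneg_left hKp2 hs0.le
      nlinarith)
  have h4 : μ.real {x | (|w| + 2 * η) * s < |Wd (B x) α α' p q s (K * s)|} ≤ δ / 2 := by
    have h5 : {x | (|w| + 2 * η) * s < |Wd (B x) α α' p q s (K * s)|} ⊆
        {x | η * s < |Wd (B x) α α' p q s (K * s) - s * wK c α α' p q K|} := by
      intro x hx
      rw [Set.mem_setOf_eq] at hx ⊢
      have e1 : |Wd (B x) α α' p q s (K * s)| ≤
          |Wd (B x) α α' p q s (K * s) - s * wK c α α' p q K| + s * |wK c α α' p q K| := by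
        have e2 := abs_sub_abs_le_abs_sub (Wd (B x) α α' p q s (K * s)) (s * wK c α α' p q K)
        rw [abs_mul, abs_of_pos hs0] at e2
        linarith
      have e3 : |wK c α α' p q K| ≤ |w| + η := by
        have e4 := abs_sub_abs_le_abs_sub (wK c α α' p q K) w
        linarith
      have e5 : (s : ℝ) * |wK c α α' p q K| ≤ s * (|w| + η) :=
        mul_le_mul_of_nonneg_left e3 hs0.le
      nlinarith
    refine (measureReal_mono h5).trans ?_
    rw [measureReal_def]
    refine ENNReal.toReal_le_of_le_ofReal (by linarith) hs1.le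
  have h5 : (∑ i ∈ Finset.range s, μ.real {x | Val α α' p d q (K * s - i * q) (B x)}) / s ≤
      w ^ 2 / (2 * d ^ 2) + δ := by linarith
  rw [div_le_iff₀ hs0] at h5
  have h6 : (∑ i ∈ Finset.range s, μ.real {x | Val α α' p d q (K * s - i * q) (B x)}) ≤
      ∑ i ∈ Finset.range s, (w ^ 2 / (2 * d ^ 2) + δ) := by
    rw [Finset.sum_const, Finset.card_range, nsmul_eq_mul, mul_comm (s : ℝ)]
    exact h5
  obtain ⟨i, hi, hi'⟩ := Finset.exists_le_of_sum_le (Finset.nonempty_range_iff.2 (by omega)) h6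
  rw [Finset.mem_range] at hi
  refine ⟨K * s - i * q, ?_, hi'⟩
  have h7 : i * q ≤ s * q := Nat.mul_le_mul_right q hi.le
  have h8 : (q + 1) * s ≤ K * s := Nat.mul_le_mul_right s hqK
  have h9 : (q + 1) * s = s * q + s := by ring
  omega

end Pool.Agent.BLP.V.H70
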